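import Mathlib

/-!
For every `n ≥ 2`, `n ≠ 6`, the number `2 ^ n - 1` has a primitive prime divisor `p` which occurs
in it to an odd power.

Let `r` be the product of the primes dividing `n` and `k = n / r`. If all primitive prime divisors
occur to an even power, then the product `M` of the numbers `2 ^ (k c) - 1`, `c ∣ r`, is a square or
a prime `P` times a square, the latter only if `n = P ^ s m`, `m` the order of `2` modulo `P`.
The Jacobi symbols `(2 ^ q - 1 | 2 ^ b - 1)` are computed by the algorithm of Euclid, and in each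
case one explicit `q` has `(2 ^ q - 1 | M) = -1`, a contradiction (for `k ≤ 2` and `M` a square,
`M` modulo `8` is enough).
-/

namespace Pool.Agent.Lib.MP_ac1dd9_nt.OddExp

/-- The number `2 ^ a - 1`. -/
private def mers (a : ℕ) : ℕ := 2 ^ a - 1

private lemma mers_cast (a : ℕ) : ((mers a : ℕ) : ℤ) = 2 ^ a - 1 := by
  unfold mers
  have : 1 ≤ 2 ^ a := Nat.one_le_two_pow
  push_cast [Nat.cast_sub this]
  ring

private lemma mers_pos {a : ℕ} (h : 1 ≤ a) : 0 < mers a := by
  unfold mers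
  have : 1 < 2 ^ a := Nat.one_lt_two_pow (by omega)
  omega

private lemma mers_mod4 {a : ℕ} (h : 2 ≤ a) : mers a % 4 = 3 := by
  obtain ⟨t, rfl⟩ : ∃ t, a = t + 2 := ⟨a - 2, by omega⟩
  unfold mers
  have h1 : 1 ≤ 2 ^ t := Nat.one_le_two_pow
  rw [pow_add]
  omega

/-- Reduction of the exponent. -/
private lemma jac_mod (a b : ℕ) : jacobiSym (mers a : ℤ) (mers b) =
    jacobiSym (mers (a % b) : ℤ) (mers b) := by
  apply jacobiSym.mod_left'
  change (mers a : ℤ) ≡ (mers (a % b) : ℤ) [ZMOD (mers b : ℤ)]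
  apply Int.ModEq.symm
  rw [Int.modEq_iff_dvd, mers_cast, mers_cast, mers_cast]
  have h1 : (2 : ℤ) ^ a - 1 - (2 ^ (a % b) - 1) = 2 ^ (a % b) * ((2 ^ b) ^ (a / b) - 1) := by
    have : (2 : ℤ) ^ a = 2 ^ (a % b) * (2 ^ b) ^ (a / b) := by
      rw [← pow_mul, ← pow_add, Nat.mod_add_div]
    rw [this]
    ring
  rw [h1]
  exact Dvd.dvd.mul_left (sub_one_dvd_pow_sub_one _ _) _

/-- The Jacobi symbol `(2 ^ a - 1 | 2 ^ b - 1)` in terms of the inverse `x` of `a` modulo `b`. -/
private lemma jac (b : ℕ) : ∀ a x z : ℕ, 2 ≤ b → a * x = 1 + b * z → x < b →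
    jacobiSym (mers a : ℤ) (mers b) = if b < 2 * x then -1 else 1 := by
  induction b using Nat.strong_induction_on with
  | _ b ih =>
    intro a x z hb hax hx
    have hx1 : 1 ≤ x := by
      rcases Nat.eq_zero_or_pos x with h | h
      · rw [h] at hax
        simp at hax
        omega
      · exact h
    obtain ⟨t, ht⟩ : ∃ t, t = a / b := ⟨_, rfl⟩
    obtain ⟨a0, ha0⟩ : ∃ a0, a0 = a % b := ⟨_, rfl⟩
    have hab : a = a0 + b * t := by rw [ha0, ht, Nat.mod_add_div]
    have ha0b : a0 < b := by rw [ha0]; exact Nat.mod_lt _ (by omega)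
    rw [jac_mod a b, ← ha0]
    have hzt : t * x ≤ z := by
      by_contra hcon
      push Not at hcon
      have h1 : b * (z + 1) ≤ b * (t * x) := Nat.mul_le_mul_left _ hcon
      rw [hab] at hax
      nlinarith
    obtain ⟨z0, hz0⟩ : ∃ z0, z = z0 + t * x := ⟨z - t * x, by omega⟩
    have h0 : a0 * x = 1 + b * z0 := by
      rw [hab, hz0] at hax
      nlinarith
    have hz0a : z0 < a0 := by
      by_contra hcon
      push Not at hcon
      have h1 : b * a0 ≤ b * z0 := Nat.mul_le_mul_left _ hcon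
      have h2 : a0 * x ≤ a0 * b := Nat.mul_le_mul_left _ hx.le
      nlinarith
    rcases Nat.lt_or_ge a0 2 with h2 | h2
    · have ha1 : a0 = 1 := by omega
      have hz00 : z0 = 0 := by omega
      rw [ha1, hz00] at h0
      have hx' : x = 1 := by omega
      rw [if_neg (by omega), ha1]
      have : mers 1 = 1 := by unfold mers; norm_num
      rw [this]
      simp
    · rw [jacobiSym.quadratic_reciprocity_three_mod_four (mers_mod4 h2) (mers_mod4 hb)]
      have hz1 : 1 ≤ z0 := by
        rcases Nat.eq_zero_or_pos z0 with h | h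
        · rw [h] at h0
          have : a0 = 1 := Nat.eq_one_of_mul_eq_one_right (by omega : a0 * x = 1)
          omega
        · exact h
      have key : b * (a0 - z0) = 1 + a0 * (b - x) := by
        zify [hz0a.le, hx.le]
        have : (a0 : ℤ) * x = 1 + b * z0 := by exact_mod_cast h0
        linear_combination this
      rw [ih a0 ha0b b (a0 - z0) (b - x) h2 key (by omega)]
      by_cases hc : b < 2 * x
      · rw [if_pos hc]
        have : ¬ a0 < 2 * (a0 - z0) := by
          intro h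
          have h3 : 2 * z0 + 1 ≤ a0 := by omega
          have h4 : b * (2 * z0 + 1) ≤ b * a0 := Nat.mul_le_mul_left _ h3
          have h5 : a0 * (b + 1) ≤ a0 * (2 * x) := Nat.mul_le_mul_left _ hc
          nlinarith
        rw [if_neg this]
      · rw [if_neg hc]
        have : a0 < 2 * (a0 - z0) := by
          by_contra h
          have h3 : a0 ≤ 2 * z0 := by omega
          have h4 : b * a0 ≤ b * (2 * z0) := Nat.mul_le_mul_left _ h3
          have h5 : a0 * (2 * x) ≤ a0 * b := Nat.mul_le_mul_left _ (by omega)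
          nlinarith
        rw [if_pos this]
        norm_num

/-- The symbol with the inverse `y` of `q`, not reduced. -/
private lemma jac3 {b q y : ℕ} (hb : 3 ≤ b) (h : q * y ≡ 1 [MOD b]) :
    jacobiSym (mers q : ℤ) (mers b) = (-1) ^ (2 * y / b) := by
  obtain ⟨x, hx⟩ : ∃ x, x = y % b := ⟨_, rfl⟩
  have hxb : x < b := by rw [hx]; exact Nat.mod_lt _ (by omega)
  have h1 : (q * x) % b = 1 := by
    have : q * x ≡ 1 [MOD b] := by
      rw [hx]
      exact ((Nat.mod_modEq y b).mul_left q).trans h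
    rw [this, Nat.mod_eq_of_lt (by omega)]
  have h2 : q * x = 1 + b * (q * x / b) := by
    have := Nat.mod_add_div (q * x) b
    omega
  rw [jac b q x _ (by omega) h2 hxb]
  have hy : 2 * y = 2 * x + b * (2 * (y / b)) := by
    have := Nat.mod_add_div y b
    rw [← hx] at this
    calc 2 * y = 2 * (x + b * (y / b)) := by rw [this]
      _ = _ := by ring
  rw [hy, Nat.add_mul_div_left _ _ (by omega), pow_add, pow_mul]
  norm_num
  split_ifs with hc
  · have : 2 * x / b = 1 := by
      rw [Nat.div_eq_iff (by omega)]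
      omega
    rw [this]
    norm_num
  · have hne : 2 * x ≠ b := by
      intro he
      have h3 : x ∣ 1 := by
        have h4 : x ∣ b * (q * x / b) := Dvd.dvd.mul_right ⟨2, by omega⟩ _
        have h5 : x ∣ 1 + b * (q * x / b) := h2 ▸ Dvd.intro_left q rfl
        exact (Nat.dvd_add_left h4).mp h5
      have : x = 1 := Nat.dvd_one.mp h3
      omega
    have : 2 * x / b = 0 := Nat.div_eq_of_lt (by omega)
    rw [this]
    norm_num

/-- If `q = 1` modulo `b`, the symbol is `1`. -/
private lemma jac1 {b q : ℕ} (h : q ≡ 1 [MOD b]) : jacobiSym (mers q : ℤ) (mers b) = 1 := by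
  rcases Nat.lt_or_ge 1 b with hb | hb
  · rw [jac_mod q b]
    have : q % b = 1 := by rw [h, Nat.mod_eq_of_lt hb]
    rw [this]
    have : mers 1 = 1 := by unfold mers; norm_num
    rw [this]
    simp
  · have : mers b = 0 ∨ mers b = 1 := by
      interval_cases b
      · left; unfold mers; norm_num
      · right; unfold mers; norm_num
    rcases this with h | h
    · rw [h]; simp
    · rw [h]; simp

private lemma jac_prod (B : ℤ) (s : Finset ℕ) (f : ℕ → ℕ) (hf : ∀ c ∈ s, f c ≠ 0) :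
    jacobiSym B (∏ c ∈ s, f c) = ∏ c ∈ s, jacobiSym B (f c) := by
  induction s using Finset.induction_on with
  | empty => simp
  | insert a s ha ih =>
    rw [Finset.prod_insert ha, Finset.prod_insert ha, jacobiSym.mul_right',
      ih (fun c hc => hf c (Finset.mem_insert_of_mem hc))]
    · exact hf a (Finset.mem_insert_self a s)
    · exact Finset.prod_ne_zero_iff.mpr fun c hc => hf c (Finset.mem_insert_of_mem hc)

private lemma even_divisors {g : ℕ} (hg : Squarefree g) (h1 : g ≠ 1) :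
    Even (Nat.divisors g).card := by
  have h0 : g ≠ 0 := hg.ne_zero
  rw [Nat.card_divisors h0]
  obtain ⟨l, hl, hlg⟩ := Nat.exists_prime_and_dvd h1
  have hm : l ∈ g.primeFactors := Nat.mem_primeFactors.mpr ⟨hl, hlg, h0⟩
  have h2 : g.factorization l = 1 := by
    have h3 := hg.natFactorization_le_one l
    have h4 := (hl.dvd_iff_one_le_factorization h0).mp hlg
    omega
  apply even_iff_two_dvd.mpr
  have := Finset.dvd_prod_of_mem (fun x => g.factorization x + 1) hm
  rw [h2] at this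
  exact this

/-- Numbers of `[1, W]` coprime to `s`. -/
private def cop (W s : ℕ) : ℕ := ((Finset.Ioc 0 W).filter fun i => s.Coprime i).card

private lemma floor_sum {s : ℕ} (hs : Squarefree s) (W : ℕ) :
    (-1 : ℤ) ^ (∑ c ∈ s.divisors, W / c) = (-1) ^ cop W s := by
  have h1 : ∑ c ∈ s.divisors, W / c =
      ∑ i ∈ Finset.Ioc 0 W, (Nat.gcd s i).divisors.card := by
    have h2 : ∀ c ∈ s.divisors, W / c = ((Finset.Ioc 0 W).filter fun i => c ∣ i).card := by
      intro c _
      rw [Nat.Ioc_filter_dvd_card_eq_div]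
    rw [Finset.sum_congr rfl h2]
    have h3 := Finset.sum_card_bipartiteAbove_eq_sum_card_bipartiteBelow
      (s := s.divisors) (t := Finset.Ioc 0 W) (fun c i => c ∣ i)
    unfold Finset.bipartiteAbove Finset.bipartiteBelow at h3
    rw [h3]
    apply Finset.sum_congr rfl
    intro i _
    apply congrArg
    ext c
    simp only [Finset.mem_filter, Nat.mem_divisors, Nat.dvd_gcd_iff]
    constructor
    · rintro ⟨⟨h4, h5⟩, h6⟩
      exact ⟨⟨h4, h6⟩, Nat.gcd_ne_zero_left h5⟩
    · rintro ⟨⟨h4, h6⟩, _⟩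
      exact ⟨⟨h4, hs.ne_zero⟩, h6⟩
  rw [h1]
  unfold cop
  rw [Finset.card_filter, ← Finset.prod_pow_eq_pow_sum, ← Finset.prod_pow_eq_pow_sum]
  apply Finset.prod_congr rfl
  intro i _
  split_ifs with hc
  · rw [Nat.Coprime] at hc
    rw [hc]
    simp
  · rw [pow_zero]
    exact (even_divisors (hs.squarefree_of_dvd (Nat.gcd_dvd_left s i)) hc).neg_one_pow

private lemma divisors_split {l s : ℕ} (hl : l.Prime) (hls : ¬ l ∣ s) (hs : s ≠ 0) :
    (l * s).divisors = s.divisors ∪ s.divisors.image (fun c => l * c) ∧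
      Disjoint s.divisors (s.divisors.image (fun c => l * c)) := by
  constructor
  · ext d
    simp only [Finset.mem_union, Nat.mem_divisors, Finset.mem_image]
    constructor
    · rintro ⟨h1, h2⟩
      by_cases h : l ∣ d
      · right
        obtain ⟨e, rfl⟩ := h
        exact ⟨e, ⟨(Nat.mul_dvd_mul_iff_left hl.pos).mp h1, hs⟩, rfl⟩
      · left
        exact ⟨((Nat.Prime.coprime_iff_not_dvd hl).mpr h).symm.dvd_of_dvd_mul_left h1, hs⟩
    · rintro (⟨h1, h2⟩ | ⟨e, ⟨h1, h2⟩, rfl⟩)
      · exact ⟨Dvd.dvd.mul_left h1 l, mul_ne_zero hl.ne_zero hs⟩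
      · exact ⟨Nat.mul_dvd_mul_left l h1, mul_ne_zero hl.ne_zero hs⟩
  · rw [Finset.disjoint_left]
    intro d hd he
    rw [Finset.mem_image] at he
    obtain ⟨e, _, rfl⟩ := he
    exact hls ((Dvd.intro e rfl).trans (Nat.dvd_of_mem_divisors hd))

private lemma prod_split {M : Type*} [CommMonoid M] {l s : ℕ} (hl : l.Prime) (hls : ¬ l ∣ s)
    (hs : s ≠ 0) (f : ℕ → M) :
    ∏ c ∈ (l * s).divisors, f c = ∏ c ∈ s.divisors, (f c * f (l * c)) := by
  obtain ⟨h1, h2⟩ := divisors_split hl hls hs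
  rw [h1, Finset.prod_union h2, Finset.prod_image, Finset.prod_mul_distrib]
  intro a _ b _ h
  exact Nat.eq_of_mul_eq_mul_left hl.pos h

private lemma sum_split {l s : ℕ} (hl : l.Prime) (hls : ¬ l ∣ s)
    (hs : s ≠ 0) (f : ℕ → ℕ) :
    ∑ c ∈ (l * s).divisors, f c = ∑ c ∈ s.divisors, (f c + f (l * c)) := by
  obtain ⟨h1, h2⟩ := divisors_split hl hls hs
  rw [h1, Finset.sum_union h2, Finset.sum_image, Finset.sum_add_distrib]
  intro a _ b _ h
  exact Nat.eq_of_mul_eq_mul_left hl.pos h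

private lemma radex {n : ℕ} (hn : n ≠ 0) :
    ∃ r k : ℕ, n = k * r ∧ Squarefree r ∧ ∀ p : ℕ, p.Prime → p ∣ n → p ∣ r := by
  refine ⟨UniqueFactorizationMonoid.radical n, n / UniqueFactorizationMonoid.radical n,
    ?_, ?_, ?_⟩
  · exact (Nat.div_mul_cancel UniqueFactorizationMonoid.radical_dvd_self).symm
  · exact UniqueFactorizationMonoid.squarefree_radical
  · intro p hp hpn
    exact (UniqueFactorizationMonoid.dvd_radical_iff_of_irreducible hp hn).mpr hpn

private lemma dvd_mers {p : ℕ} (e : ℕ) : p ∣ mers e ↔ orderOf (2 : ZMod p) ∣ e := by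
  rw [orderOf_dvd_iff_pow_eq_one, ← ZMod.natCast_eq_zero_iff]
  have h : ((mers e : ℕ) : ZMod p) = 2 ^ e - 1 := by
    unfold mers
    have := Nat.one_le_two_pow (n := e)
    push_cast [Nat.cast_sub this]
    ring
  rw [h, sub_eq_zero]

private lemma ne_two {p e : ℕ} (he : 1 ≤ e) (h : p ∣ mers e) : p ≠ 2 := by
  rintro rfl
  unfold mers at h
  obtain ⟨t, rfl⟩ : ∃ t, e = t + 1 := ⟨e - 1, by omega⟩
  have h1 : 1 ≤ 2 ^ t := Nat.one_le_two_pow
  rw [pow_succ] at h
  omega

private lemma val_pair {p l e : ℕ} (hp : p.Prime) (hl : l.Prime) (hpl : l ≠ p) (he : 1 ≤ e)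
    (h : p ∣ mers (l * e) → p ∣ mers e) :
    padicValNat p (mers (l * e)) = padicValNat p (mers e) := by
  have := Fact.mk hp
  by_cases h1 : p ∣ mers e
  · have hp2 := ne_two he h1
    have hodd : Odd p := hp.odd_of_ne_two hp2
    have h3 : ¬ p ∣ 2 ^ e := by
      intro h4
      have h5 := hp.dvd_of_dvd_pow h4
      rcases (Nat.dvd_prime Nat.prime_two).mp h5 with h6 | h6
      · exact hp.one_lt.ne' h6
      · exact hp2 h6
    have h2 := padicValNat.pow_sub_pow hodd (x := 2 ^ e) (y := 1)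
      (Nat.one_lt_two_pow (by omega)) h1 h3 hl.ne_zero
    rw [one_pow, ← pow_mul, mul_comm e l] at h2
    unfold mers
    rw [h2, padicValNat.eq_zero_of_not_dvd (n := l), add_zero]
    intro h4
    exact hpl ((Nat.prime_dvd_prime_iff_eq hp hl).mp h4).symm
  · rw [padicValNat.eq_zero_of_not_dvd h1, padicValNat.eq_zero_of_not_dvd]
    exact fun h2 => h1 (h h2)

/-- The product to which the symbols are taken. -/
private def MM (k r : ℕ) : ℕ := ∏ c ∈ r.divisors, mers (k * c)

private lemma MM_ne {k r : ℕ} (hk : 1 ≤ k) : MM k r ≠ 0 := by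
  unfold MM
  rw [Finset.prod_ne_zero_iff]
  intro c hc
  have := Nat.pos_of_mem_divisors hc
  exact (mers_pos (Nat.mul_pos hk this)).ne'

private lemma val_MM {k r p : ℕ} (hk : 1 ≤ k) (hp : p.Prime) :
    padicValNat p (MM k r) = ∑ c ∈ r.divisors, padicValNat p (mers (k * c)) := by
  unfold MM
  rw [← Nat.factorization_def _ hp, Nat.factorization_prod, Finsupp.finsetSum_apply]
  · apply Finset.sum_congr rfl
    intro c _
    rw [Nat.factorization_def _ hp]
  · intro c hc
    have := Nat.pos_of_mem_divisors hc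
    exact (mers_pos (Nat.mul_pos hk this)).ne'

private lemma oddval {n k r p : ℕ} (hn : n ≠ 0) (hkr : n = k * r) (hr : Squarefree r)
    (hrad : ∀ p : ℕ, p.Prime → p ∣ n → p ∣ r) (hp : p.Prime)
    (hodd : Odd (padicValNat p (MM k r))) :
    p ≠ 2 ∧ ((orderOf (2 : ZMod p) = n ∧ Odd (padicValNat p (mers n))) ∨
      ∃ s, 1 ≤ s ∧ n = p ^ s * orderOf (2 : ZMod p)) := by
  have hk : 1 ≤ k := by
    rcases Nat.eq_zero_or_pos k with h | h
    · rw [h] at hkr
      simp at hkr
      exact absurd hkr hn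
    · exact h
  have hr0 : r ≠ 0 := hr.ne_zero
  have hpM : p ∣ MM k r := by
    by_contra h
    rw [padicValNat.eq_zero_of_not_dvd h] at hodd
    exact absurd hodd (by decide)
  obtain ⟨c, hc, hpc⟩ := (Nat.Prime.prime hp).exists_mem_finset_dvd hpM
  have hc1 := Nat.pos_of_mem_divisors hc
  have hkc : 1 ≤ k * c := Nat.mul_pos hk hc1
  refine ⟨ne_two hkc hpc, ?_⟩
  have hd : orderOf (2 : ZMod p) ∣ n := by
    rw [hkr]
    exact ((dvd_mers _).mp hpc).trans (Nat.mul_dvd_mul_left k (Nat.dvd_of_mem_divisors hc))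
  obtain ⟨e, he⟩ := hd
  have he0 : e ≠ 0 := by
    rintro rfl
    simp at he
    exact hn he
  have huniq : ∀ {l : ℕ}, l.Prime → l ∣ e → l = p := by
    intro l hl hle
    by_contra hlp
    have hlr : l ∣ r := hrad l hl (he ▸ Dvd.dvd.mul_left hle _)
    obtain ⟨s, rfl⟩ := hlr
    obtain ⟨e', rfl⟩ := hle
    have hls : ¬ l ∣ s := by
      intro h
      obtain ⟨s', rfl⟩ := h
      have h1 : l * l ∣ l * (l * s') := ⟨s', by ring⟩
      exact hl.one_lt.ne' (Nat.isUnit_iff.mp (hr l h1))
    have hs0 : s ≠ 0 := right_ne_zero_of_mul hr0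
    have hks : k * s = orderOf (2 : ZMod p) * e' := by
      have : l * (k * s) = l * (orderOf (2 : ZMod p) * e') := by
        calc l * (k * s) = k * (l * s) := by ring
          _ = orderOf (2 : ZMod p) * (l * e') := by rw [← hkr, he]
          _ = _ := by ring
      exact Nat.eq_of_mul_eq_mul_left hl.pos this
    rw [val_MM hk hp, sum_split hl hls hs0] at hodd
    have h2 : ∀ c ∈ s.divisors, padicValNat p (mers (k * c)) +
        padicValNat p (mers (k * (l * c))) = 2 * padicValNat p (mers (k * c)) := by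
      intro c hc
      have hc1 := Nat.pos_of_mem_divisors hc
      obtain ⟨c', hc'⟩ := Nat.dvd_of_mem_divisors hc
      have h3 : k * (l * c) = l * (k * c) := by ring
      rw [h3, val_pair hp hl hlp (Nat.mul_pos hk hc1), two_mul]
      rw [dvd_mers, dvd_mers]
      intro h4
      have h5 : orderOf (2 : ZMod p) ∣ k * s := ⟨e', hks⟩
      have h6 := Nat.dvd_gcd h5 h4
      have h7 : Nat.gcd (k * s) (l * (k * c)) = k * c := by
        rw [hc', show k * (c * c') = (k * c) * c' by ring, show l * (k * c) = (k * c) * l by ring,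
          Nat.gcd_mul_left]
        have : Nat.gcd c' l = 1 := by
          apply Nat.Coprime.symm
          rw [Nat.Prime.coprime_iff_not_dvd hl]
          intro h8
          exact hls (hc' ▸ Dvd.dvd.mul_left h8 c)
        rw [this, mul_one]
      rwa [h7] at h6
    rw [Finset.sum_congr rfl h2, ← Finset.mul_sum] at hodd
    exact (Nat.not_odd_iff_even.mpr (even_two_mul _)) hodd
  have het := Nat.eq_prime_pow_of_unique_prime_dvd he0 huniq
  rcases Nat.eq_zero_or_pos e.primeFactorsList.length with ht | ht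
  · left
    rw [ht, pow_zero] at het
    rw [het, mul_one] at he
    refine ⟨he.symm, ?_⟩
    rw [val_MM hk hp, Finset.sum_eq_single r] at hodd
    · rw [← hkr] at hodd
      exact hodd
    · intro c hc hcr
      apply padicValNat.eq_zero_of_not_dvd
      rw [dvd_mers, ← he]
      intro h
      have hc1 := Nat.pos_of_mem_divisors hc
      have h1 := Nat.le_of_dvd (Nat.mul_pos hk hc1) h
      have h2 : c ≤ r := Nat.divisor_le hc
      have h3 : c < r := lt_of_le_of_ne h2 hcr
      have h4 : k * c < k * r := Nat.mul_lt_mul_of_pos_left h3 hk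
      omega
    · intro h
      exact absurd (Nat.mem_divisors_self r hr0) h
  · right
    refine ⟨_, ht, ?_⟩
    rw [← het, mul_comm]
    exact he

private lemma uniq {n p p' s s' : ℕ} (hp : p.Prime) (hp' : p'.Prime) (hp2 : p ≠ 2)
    (hs' : 1 ≤ s') (h : n = p ^ s * orderOf (2 : ZMod p))
    (h' : n = p' ^ s' * orderOf (2 : ZMod p')) : p' ≤ p := by
  by_contra hlt
  push Not at hlt
  have := Fact.mk hp
  have h1 : p' ∣ p ^ s * orderOf (2 : ZMod p) := by
    rw [← h, h']
    exact Dvd.dvd.mul_right (dvd_pow_self _ (by omega)) _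
  rcases (Nat.Prime.dvd_mul hp').mp h1 with h2 | h2
  · have h3 := (Nat.prime_dvd_prime_iff_eq hp' hp).mp (hp'.dvd_of_dvd_pow h2)
    omega
  · have h20 : (2 : ZMod p) ≠ 0 := by
      intro h4
      have h5 : ((2 : ℕ) : ZMod p) = 0 := by exact_mod_cast h4
      rw [ZMod.natCast_eq_zero_iff] at h5
      exact hp2 ((Nat.prime_dvd_prime_iff_eq hp Nat.prime_two).mp h5)
    have h3 := h2.trans (ZMod.orderOf_dvd_card_sub_one h20)
    have h4 := hp.two_le
    have h5 := Nat.le_of_dvd (by omega) h3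
    omega

/-- The structure of the product if the theorem fails. -/
private lemma struct {n k r : ℕ} (hn : n ≠ 0) (hkr : n = k * r) (hr : Squarefree r)
    (hrad : ∀ p : ℕ, p.Prime → p ∣ n → p ∣ r)
    (H : ∀ p : ℕ, p.Prime → orderOf (2 : ZMod p) = n → ¬ Odd (padicValNat p (mers n))) :
    ∃ b : ℕ, b ≠ 0 ∧ (MM k r = b ^ 2 * 1 ∨ ∃ P s : ℕ, P.Prime ∧ P ≠ 2 ∧ 1 ≤ s ∧
      n = P ^ s * orderOf (2 : ZMod P) ∧ MM k r = b ^ 2 * P) := by
  have hk : 1 ≤ k := by
    rcases Nat.eq_zero_or_pos k with h | h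
    · rw [h] at hkr
      simp at hkr
      exact absurd hkr hn
    · exact h
  obtain ⟨a, b, hab, hsq⟩ := Nat.sq_mul_squarefree (MM k r)
  have hM := MM_ne (r := r) hk
  have hb : b ≠ 0 := by
    rintro rfl
    simp at hab
    exact hM hab.symm
  have ha : a ≠ 0 := hsq.ne_zero
  refine ⟨b, hb, ?_⟩
  have hodd : ∀ p : ℕ, p.Prime → p ∣ a → p ≠ 2 ∧ ∃ s, 1 ≤ s ∧ n = p ^ s * orderOf (2 : ZMod p) := by
    intro p hp hpa
    have := Fact.mk hp
    have h1 : Odd (padicValNat p (MM k r)) := by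
      rw [← hab, padicValNat.mul (pow_ne_zero 2 hb) ha, padicValNat.pow b 2]
      have h2 : padicValNat p a = 1 := by
        rw [← Nat.factorization_def _ hp]
        have h3 := hsq.natFactorization_le_one p
        have h4 := (hp.dvd_iff_one_le_factorization ha).mp hpa
        omega
      rw [h2]
      exact odd_two_mul_add_one _
    obtain ⟨h3, h4⟩ := oddval hn hkr hr hrad hp h1
    refine ⟨h3, ?_⟩
    rcases h4 with ⟨h5, h6⟩ | h5
    · exact absurd h6 (H p hp h5)
    · exact h5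
  by_cases ha1 : a = 1
  · left
    rw [← hab, ha1]
  · right
    obtain ⟨P, hP, hPa⟩ := Nat.exists_prime_and_dvd ha1
    obtain ⟨hP2, s, hs, hPn⟩ := hodd P hP hPa
    refine ⟨P, s, hP, hP2, hs, hPn, ?_⟩
    have h1 : ∀ {l : ℕ}, l.Prime → l ∣ a → l = P := by
      intro l hl hla
      obtain ⟨hl2, s', hs', hln⟩ := hodd l hl hla
      exact le_antisymm (uniq hP hl hP2 hs' hPn hln) (uniq hl hP hl2 hs hln hPn)
    have h2 := Nat.eq_prime_pow_of_unique_prime_dvd ha h1
    have h3 : a.primeFactorsList.length ≠ 0 := by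
      intro h4
      rw [h4, pow_zero] at h2
      exact ha1 h2
    have h4 : a.primeFactorsList.length = 1 := by
      rw [h2] at hsq
      exact ((Nat.squarefree_pow_iff hP.one_lt.ne' h3).mp hsq).2
    rw [h4, pow_one] at h2
    rw [← hab, ← h2]

private lemma J_MM {k r : ℕ} (hk : 1 ≤ k) (B : ℤ) :
    jacobiSym B (MM k r) = ∏ c ∈ r.divisors, jacobiSym B (mers (k * c)) := by
  unfold MM
  exact jac_prod B _ _
    (fun c hc => (mers_pos (Nat.mul_pos hk (Nat.pos_of_mem_divisors hc))).ne')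

private lemma signA {n k r q y : ℕ} (hk : 3 ≤ k) (hkr : n = k * r) (hr : Squarefree r)
    (h : q * y ≡ 1 [MOD n]) : jacobiSym (mers q : ℤ) (MM k r) = (-1) ^ cop (2 * y / k) r := by
  rw [J_MM (by omega), ← floor_sum hr, ← Finset.prod_pow_eq_pow_sum]
  apply Finset.prod_congr rfl
  intro c hc
  have hc1 := Nat.pos_of_mem_divisors hc
  have hd : k * c ∣ n := by
    rw [hkr]
    exact Nat.mul_dvd_mul_left k (Nat.dvd_of_mem_divisors hc)
  rw [jac3 (b := k * c) (y := y) (by nlinarith) (h.of_dvd hd), Nat.div_div_eq_div_mul]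

private lemma signB {n k P s q y : ℕ} (hk : 1 ≤ k) (hP : P.Prime) (hP3 : 3 ≤ P)
    (hkr : n = k * (P * s)) (hs : Squarefree s) (hPs : ¬ P ∣ s)
    (h : q * y ≡ 1 [MOD n]) (hq : q ≡ 1 [MOD k * s]) :
    jacobiSym (mers q : ℤ) (MM k (P * s)) = (-1) ^ cop (2 * y / (k * P)) s := by
  rw [J_MM hk, prod_split hP hPs hs.ne_zero, ← floor_sum hs, ← Finset.prod_pow_eq_pow_sum]
  apply Finset.prod_congr rfl
  intro c hc
  have hc1 := Nat.pos_of_mem_divisors hc
  have hcs := Nat.dvd_of_mem_divisors hc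
  have hd : k * (P * c) ∣ n := by
    rw [hkr]
    exact Nat.mul_dvd_mul_left k (Nat.mul_dvd_mul_left P hcs)
  have h3 : 3 ≤ k * (P * c) := by
    have h4 : 1 * (3 * 1) ≤ k * (P * c) := Nat.mul_le_mul hk (Nat.mul_le_mul hP3 hc1)
    omega
  rw [jac1 (hq.of_dvd (Nat.mul_dvd_mul_left k hcs)), one_mul,
    jac3 (b := k * (P * c)) (y := y) h3 (h.of_dvd hd), Nat.div_div_eq_div_mul, mul_assoc]

private lemma no_neg {B : ℤ} {b P M : ℕ} (hb : b ≠ 0) (hP : P ≠ 0) (h1 : jacobiSym B P = 1)
    (hM : M = b ^ 2 * P) (h : jacobiSym B M = -1) : False := by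
  rw [hM, jacobiSym.mul_right' B (pow_ne_zero 2 hb) hP, jacobiSym.pow_right, h1, mul_one] at h
  nlinarith [sq_nonneg (jacobiSym B b)]

private lemma jacP {P q : ℕ} (hq : 1 ≤ q) (h : q ≡ 1 [MOD orderOf (2 : ZMod P)]) :
    jacobiSym (mers q : ℤ) P = 1 := by
  have h1 : orderOf (2 : ZMod P) ∣ q - 1 := (Nat.modEq_iff_dvd' hq).mp h.symm
  have h2 : P ∣ mers (q - 1) := (dvd_mers _).mpr h1
  have h3 : (mers q : ℤ) ≡ 1 [ZMOD P] := by
    apply Int.ModEq.symm
    rw [Int.modEq_iff_dvd]
    obtain ⟨t, rfl⟩ : ∃ t, q = t + 1 := ⟨q - 1, by omega⟩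
    have h4 : (mers (t + 1) : ℤ) - 1 = 2 * (mers t : ℤ) := by
      rw [mers_cast, mers_cast, pow_succ]
      ring
    rw [h4]
    apply Dvd.dvd.mul_left
    exact_mod_cast h2
  rw [jacobiSym.mod_left' h3, jacobiSym.one_left]

private lemma cop_one (s : ℕ) : cop 1 s = 1 := by
  unfold cop
  have : Finset.Ioc 0 1 = {1} := rfl
  rw [this, Finset.filter_singleton, if_pos (Nat.coprime_one_right s)]
  rfl

private lemma cop_succ (s : ℕ) : cop (s + 1) s = Nat.totient s + 1 := by
  unfold cop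
  have h1 : Finset.Ioc 0 (s + 1) = insert (s + 1) (Finset.Ico 1 (1 + s)) := by
    ext i
    simp only [Finset.mem_Ioc, Finset.mem_insert, Finset.mem_Ico]
    omega
  rw [h1, Finset.filter_insert, if_pos (by simp), Finset.card_insert_of_notMem,
    Nat.filter_coprime_Ico_eq_totient]
  simp
  omega

private lemma mers_zmod4 {e : ℕ} (he : 2 ≤ e) : ((mers e : ℕ) : ZMod 4) = -1 := by
  obtain ⟨t, rfl⟩ : ∃ t, e = t + 2 := ⟨e - 2, by omega⟩
  have h1 : ((mers (t + 2) : ℕ) : ZMod 4) = 2 ^ (t + 2) - 1 := by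
    unfold mers
    have := Nat.one_le_two_pow (n := t + 2)
    push_cast [Nat.cast_sub this]
    ring
  rw [h1, pow_add, show (2 : ZMod 4) ^ 2 = 0 by decide]
  ring

private lemma mers_zmod8 {e : ℕ} (he : 3 ≤ e) : ((mers e : ℕ) : ZMod 8) = -1 := by
  obtain ⟨t, rfl⟩ : ∃ t, e = t + 3 := ⟨e - 3, by omega⟩
  have h1 : ((mers (t + 3) : ℕ) : ZMod 8) = 2 ^ (t + 3) - 1 := by
    unfold mers
    have := Nat.one_le_two_pow (n := t + 3)
    push_cast [Nat.cast_sub this]
    ring
  rw [h1, pow_add, show (2 : ZMod 8) ^ 3 = 0 by decide]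
  ring

private lemma odd_erase {r : ℕ} (hr : Squarefree r) (h2 : 2 ≤ r) :
    Odd (r.divisors.erase 1).card := by
  rw [Finset.card_erase_of_mem (Nat.one_mem_divisors.mpr hr.ne_zero)]
  obtain ⟨t, ht⟩ := even_divisors hr (by omega)
  have h1 : 0 < r.divisors.card :=
    Finset.card_pos.mpr ⟨1, Nat.one_mem_divisors.mpr hr.ne_zero⟩
  exact ⟨t - 1, by omega⟩

private lemma case1 {r b : ℕ} (hr : Squarefree r) (h2 : 2 ≤ r) (h : MM 1 r = b ^ 2 * 1) :
    False := by
  have h1 : ((MM 1 r : ℕ) : ZMod 4) = -1 := by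
    unfold MM
    rw [Nat.cast_prod, ← Finset.mul_prod_erase _ _ (Nat.one_mem_divisors.mpr hr.ne_zero)]
    have h3 : ∀ c ∈ r.divisors.erase 1, ((mers (1 * c) : ℕ) : ZMod 4) = -1 := by
      intro c hc
      rw [Finset.mem_erase] at hc
      have := Nat.pos_of_mem_divisors hc.2
      exact mers_zmod4 (by omega)
    rw [Finset.prod_congr rfl h3, Finset.prod_const, (odd_erase hr h2).neg_one_pow]
    have : mers (1 * 1) = 1 := by unfold mers; norm_num
    rw [this]
    simp
  rw [h] at h1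
  push_cast at h1
  have h4 : ∀ x : ZMod 4, x ^ 2 * 1 ≠ -1 := by decide
  exact h4 _ h1

private lemma case2 {r b : ℕ} (hr : Squarefree r) (h2 : 2 ≤ r) (h : MM 2 r = b ^ 2 * 1) :
    False := by
  have h1 : ((MM 2 r : ℕ) : ZMod 8) = -3 := by
    unfold MM
    rw [Nat.cast_prod, ← Finset.mul_prod_erase _ _ (Nat.one_mem_divisors.mpr hr.ne_zero)]
    have h3 : ∀ c ∈ r.divisors.erase 1, ((mers (2 * c) : ℕ) : ZMod 8) = -1 := by
      intro c hc
      rw [Finset.mem_erase] at hc
      have := Nat.pos_of_mem_divisors hc.2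
      exact mers_zmod8 (by omega)
    rw [Finset.prod_congr rfl h3, Finset.prod_const, (odd_erase hr h2).neg_one_pow]
    have : mers (2 * 1) = 3 := by unfold mers; norm_num
    rw [this]
    decide
  rw [h] at h1
  push_cast at h1
  have h4 : ∀ x : ZMod 8, x ^ 2 * 1 ≠ -3 := by decide
  exact h4 _ h1

private lemma not_cop {n r i : ℕ} (hrad : ∀ p : ℕ, p.Prime → p ∣ n → p ∣ r)
    (h : ¬ Nat.Coprime n i) : ¬ Nat.Coprime r i := by
  obtain ⟨p, hp, hpn, hpi⟩ := Nat.Prime.not_coprime_iff_dvd.mp h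
  exact Nat.Prime.not_coprime_iff_dvd.mpr ⟨p, hp, hrad p hp hpn, hpi⟩

private lemma inv {n y : ℕ} (hn : 2 ≤ n) (h : Nat.Coprime y n) :
    ∃ q, 1 ≤ q ∧ q * y ≡ 1 [MOD n] := by
  obtain ⟨q, _, hq⟩ := Nat.exists_mul_mod_eq_one_of_coprime h (by omega)
  refine ⟨q, ?_, ?_⟩
  · rcases Nat.eq_zero_or_pos q with h0 | h0
    · rw [h0, mul_zero, Nat.zero_mod] at hq
      omega
    · exact h0
  · rw [mul_comm]
    change _ % n = 1 % n
    rw [hq, Nat.mod_eq_of_lt (by omega)]

private lemma case3 {n k r b : ℕ} (hk : 3 ≤ k) (hkr : n = k * r) (hr : Squarefree r)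
    (hrad : ∀ p : ℕ, p.Prime → p ∣ n → p ∣ r) (hb : b ≠ 0)
    (h : MM k r = b ^ 2 * 1) : False := by
  have hr0 : 1 ≤ r := Nat.pos_of_ne_zero hr.ne_zero
  have hn : 2 ≤ n := by rw [hkr]; nlinarith
  have hex : ∃ g, 1 < g ∧ Nat.Coprime n g := ⟨n + 1, by omega, by simp⟩
  obtain ⟨g, hg1, hgn, hmin⟩ : ∃ g, 1 < g ∧ Nat.Coprime n g ∧
      ∀ i, 1 < i → i < g → ¬ Nat.Coprime n i :=
    ⟨Nat.find hex, (Nat.find_spec hex).1, (Nat.find_spec hex).2,
      fun i h1 h2 h3 => Nat.find_min hex h2 ⟨h1, h3⟩⟩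
  have hexj : ∃ j, k < 2 * g ^ j := ⟨k, by have := Nat.lt_pow_self hg1 (n := k); omega⟩
  obtain ⟨j, hj, hjmin⟩ : ∃ j, k < 2 * g ^ j ∧ ∀ i, i < j → ¬ k < 2 * g ^ i :=
    ⟨Nat.find hexj, Nat.find_spec hexj, fun i h1 => Nat.find_min hexj h1⟩
  obtain ⟨i, rfl⟩ : ∃ i, j = i + 1 := by
    rcases Nat.eq_zero_or_pos j with h0 | h0
    · rw [h0, pow_zero] at hj
      omega
    · exact ⟨j - 1, by omega⟩
  have h1 : 2 * g ^ i ≤ k := by
    have := hjmin i (by omega)
    omega
  have h2 : 2 * g ^ i ≠ k := by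
    intro he
    rcases Nat.eq_zero_or_pos i with h0 | h0
    · rw [h0, pow_zero] at he
      omega
    · have h3 : g ∣ n := by
        rw [hkr, ← he]
        exact Dvd.dvd.mul_right (Dvd.dvd.mul_left (dvd_pow_self g (by omega)) 2) r
      have h4 : g ∣ 1 := by
        have := Nat.dvd_gcd h3 (dvd_refl g)
        rwa [hgn] at this
      have := Nat.dvd_one.mp h4
      omega
  have hy : Nat.Coprime (g ^ (i + 1)) n := Nat.Coprime.pow_left _ hgn.symm
  obtain ⟨q, hq1, hq⟩ := inv hn hy
  have hs := signA hk hkr hr hq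
  have hW1 : 1 ≤ 2 * g ^ (i + 1) / k := by
    rw [Nat.le_div_iff_mul_le (by omega)]
    omega
  have hWg : 2 * g ^ (i + 1) / k < g := by
    rw [Nat.div_lt_iff_lt_mul (by omega), pow_succ]
    have : 2 * g ^ i < k := lt_of_le_of_ne h1 h2
    nlinarith
  have hcop : cop (2 * g ^ (i + 1) / k) r = 1 := by
    unfold cop
    rw [Finset.card_eq_one]
    refine ⟨1, ?_⟩
    ext c
    simp only [Finset.mem_filter, Finset.mem_Ioc, Finset.mem_singleton]
    constructor
    · rintro ⟨⟨h3, h4⟩, h5⟩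
      by_contra h6
      exact not_cop hrad (hmin c (by omega) (by omega)) h5
    · rintro rfl
      exact ⟨⟨by omega, hW1⟩, Nat.coprime_one_right r⟩
  rw [hcop, pow_one] at hs
  exact no_neg hb one_ne_zero (jacobiSym.one_right _) h hs

private lemma pcase {n k r P s b : ℕ} (hn2 : 2 ≤ n) (hn6 : n ≠ 6) (hkr : n = k * r)
    (hr : Squarefree r) (hrad : ∀ p : ℕ, p.Prime → p ∣ n → p ∣ r) (hb : b ≠ 0) (hP : P.Prime)
    (hP2 : P ≠ 2) (hs : 1 ≤ s) (hPn : n = P ^ s * orderOf (2 : ZMod P))
    (hM : MM k r = b ^ 2 * P) : False := by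
  obtain ⟨m, hm⟩ : ∃ m, m = orderOf (2 : ZMod P) := ⟨_, rfl⟩
  have hjac : ∀ q, 1 ≤ q → q ≡ 1 [MOD m] → jacobiSym (mers q : ℤ) P = 1 := by
    intro q hq1 hq
    rw [hm] at hq
    exact jacP hq1 hq
  rw [← hm] at hPn
  have := Fact.mk hP
  have hP3 : 3 ≤ P := by
    have := hP.two_le
    omega
  have hm0 : m ≠ 0 := by
    rintro h0
    rw [h0] at hPn
    omega
  have hm1 : m ≠ 1 := by
    intro h1
    have h3 : P ∣ mers 1 := by
      rw [dvd_mers, ← hm, h1]
    have h4 : mers 1 = 1 := by unfold mers; norm_num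
    rw [h4] at h3
    exact hP.one_lt.ne' (Nat.dvd_one.mp h3)
  have hm2 : 2 ≤ m := by omega
  have h20 : (2 : ZMod P) ≠ 0 := by
    intro h4
    have h5 : ((2 : ℕ) : ZMod P) = 0 := by exact_mod_cast h4
    rw [ZMod.natCast_eq_zero_iff] at h5
    exact hP2 ((Nat.prime_dvd_prime_iff_eq hP Nat.prime_two).mp h5)
  obtain ⟨h, hh⟩ : m ∣ P - 1 := by
    rw [hm]
    exact ZMod.orderOf_dvd_card_sub_one h20
  have hPm : P = h * m + 1 := by
    rw [mul_comm h m]
    omega
  have hh1 : 1 ≤ h := by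
    rcases Nat.eq_zero_or_pos h with h0 | h0
    · rw [h0] at hPm
      omega
    · exact h0
  have hmP : m < P := by nlinarith
  have hPdm : ¬ P ∣ m := fun h1 => absurd (Nat.le_of_dvd (by omega) h1) (by omega)
  obtain ⟨t, rfl⟩ : ∃ t, s = t + 1 := ⟨s - 1, by omega⟩
  obtain ⟨m', rfl⟩ : P ∣ r := by
    apply hrad P hP
    rw [hPn]
    exact Dvd.dvd.mul_right (dvd_pow_self P (by omega)) m
  have hPm' : ¬ P ∣ m' := by
    intro h1
    obtain ⟨s', rfl⟩ := h1
    exact hP.one_lt.ne' (Nat.isUnit_iff.mp (hr P ⟨s', by ring⟩))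
  have hm'sq : Squarefree m' := hr.squarefree_of_dvd ⟨P, by ring⟩
  have h1 : k * m' = P ^ t * m := by
    have h2 : P * (k * m') = P * (P ^ t * m) := by
      calc P * (k * m') = k * (P * m') := by ring
        _ = P ^ (t + 1) * m := by rw [← hkr, hPn]
        _ = _ := by ring
    exact Nat.eq_of_mul_eq_mul_left hP.pos h2
  obtain ⟨km, rfl⟩ : P ^ t ∣ k := by
    have h2 : Nat.Coprime (P ^ t) m' :=
      Nat.Coprime.pow_left t ((Nat.Prime.coprime_iff_not_dvd hP).mpr hPm')
    exact h2.dvd_of_dvd_mul_right ⟨m, h1⟩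
  have hkm : km * m' = m := by
    have h2 : P ^ t * (km * m') = P ^ t * m := by rw [← h1]; ring
    exact Nat.eq_of_mul_eq_mul_left (pow_pos hP.pos t) h2
  have hkm1 : 1 ≤ km := by
    rcases Nat.eq_zero_or_pos km with h0 | h0
    · rw [h0] at hkm
      omega
    · exact h0
  have hPt : 1 ≤ P ^ t := Nat.one_le_pow _ _ hP.pos
  have hmn : m ∣ n := ⟨P ^ (t + 1), by rw [hPn]; ring⟩
  -- the two formulas for the symbol
  have key : ∀ y, y ≡ 1 [MOD m] → ¬ P ∣ y →
      (t = 0 → ¬ Odd (cop (2 * y / (km * P)) m')) ∧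
      (1 ≤ t → ¬ Odd (cop (2 * y / (P ^ t * km)) (P * m'))) := by
    intro y hy hPy
    have hyn : Nat.Coprime y n := by
      rw [hPn]
      apply Nat.Coprime.mul_right
      · exact Nat.Coprime.pow_right _ ((Nat.Prime.coprime_iff_not_dvd hP).mpr hPy).symm
      · have h3 : Nat.gcd y m = Nat.gcd 1 m := Nat.ModEq.gcd_eq hy
        rw [Nat.gcd_one_left] at h3
        exact h3
    obtain ⟨q, hq1, hq⟩ := inv hn2 hyn
    have hqm : q ≡ 1 [MOD m] := by
      have h3 : q * y ≡ 1 [MOD m] := hq.of_dvd hmn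
      have h4 : q * y ≡ q * 1 [MOD m] := hy.mul_left q
      rw [mul_one] at h4
      exact h4.symm.trans h3
    constructor
    · intro ht hodd
      subst ht
      simp only [pow_zero, one_mul] at hM hkr
      have h5 := signB hkm1 hP hP3 hkr hm'sq hPm' hq (hkm ▸ hqm)
      rw [hodd.neg_one_pow] at h5
      exact no_neg hb hP.ne_zero (hjac q hq1 hqm) hM h5
    · intro ht hodd
      have h3 : 3 ≤ P ^ t * km := by
        have h4 : P ≤ P ^ t := by
          calc P = P ^ 1 := (pow_one P).symm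
            _ ≤ P ^ t := Nat.pow_le_pow_right hP.pos ht
        nlinarith
      have h5 := signA h3 hkr hr hq
      rw [hodd.neg_one_pow] at h5
      exact no_neg hb hP.ne_zero (hjac q hq1 hqm) hM h5
  -- the exponent `u + 1` of `P` in `K`
  obtain ⟨u, hu⟩ : ∃ u, (t = 0 ∧ u = 0) ∨ (t = u + 1) := by
    rcases Nat.eq_zero_or_pos t with h0 | h0
    · exact ⟨0, Or.inl ⟨h0, rfl⟩⟩
    · exact ⟨t - 1, Or.inr (by omega)⟩
  have key1 : ∀ y, y ≡ 1 [MOD m] → ¬ P ∣ y → P ^ (u + 1) * km ≤ 2 * y →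
      2 * y < 2 * (P ^ (u + 1) * km) → False := by
    intro y hy hPy hK1 hK2
    obtain ⟨ka, kb⟩ := key y hy hPy
    rcases hu with ⟨ht, hu0⟩ | ht
    · subst hu0
      apply ka ht
      have h3 : 2 * y / (km * P) = 1 := by
        rw [zero_add, pow_one, mul_comm P km] at hK1 hK2
        rw [Nat.div_eq_iff (Nat.mul_pos hkm1 hP.pos)]
        omega
      rw [h3, cop_one]
      exact odd_one
    · apply kb (by omega)
      rw [← ht] at hK1 hK2
      have h3 : 2 * y / (P ^ t * km) = 1 := by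
        rw [Nat.div_eq_iff (Nat.mul_pos hPt hkm1)]
        omega
      rw [h3, cop_one]
      exact odd_one
  have hPmod : P ≡ 1 [MOD m] := by
    rw [hPm]
    change (h * m + 1) % m = 1 % m
    rw [Nat.mul_add_mod_self_right]
  have hKmod : P ^ (u + 1) * km ≡ km [MOD m] := by
    have h3 := (hPmod.pow (u + 1)).mul_right km
    rwa [one_pow, one_mul] at h3
  have hPK : P ∣ P ^ (u + 1) * km := Dvd.dvd.mul_right (dvd_pow_self P (by omega)) km
  have hkmm : km ≤ m := Nat.le_of_dvd (by omega) ⟨m', hkm.symm⟩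
  obtain ⟨K, hK⟩ : ∃ K, K = P ^ (u + 1) * km := ⟨_, rfl⟩
  rw [← hK] at key1 hKmod hPK
  -- size of `K` for `u ≥ 1`
  have hKbig : 1 ≤ u → P * P * km ≤ K := by
    intro hu1
    rw [hK]
    apply Nat.mul_le_mul_right
    calc P * P = P ^ 2 := by ring
      _ ≤ P ^ (u + 1) := Nat.pow_le_pow_right hP.pos (by omega)
  have hK0 : u = 0 → K = P * km := by
    rintro rfl
    rw [hK, zero_add, pow_one]
  -- the generic case
  have gen : ¬ (h = 1 ∧ km = 2) → 2 * (km + m) ≤ K + 2 → False := by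
    intro hne hle
    obtain ⟨y, hy⟩ : ∃ y, y + (km + m) = K + 1 := ⟨K + 1 - (km + m), by omega⟩
    apply key1 y _ _ (by omega) (by omega)
    · have h3 : y + (km + m) ≡ 1 + (km + m) [MOD m] := by
        rw [hy]
        have h4 : K + 1 ≡ km + 1 [MOD m] := hKmod.add_right 1
        have h5 : km + 1 ≡ 1 + (km + m) [MOD m] := by
          change (km + 1) % m = (1 + (km + m)) % m
          rw [show 1 + (km + m) = km + 1 + m by ring, Nat.add_mod_right]
        exact h4.trans h5
      exact Nat.ModEq.add_right_cancel' _ h3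
    · intro hPy
      have h3 : P ∣ km + m - 1 := by
        have h4 : P ∣ K - y := Nat.dvd_sub hPK hPy
        have h5 : K - y = km + m - 1 := by omega
        rwa [h5] at h4
      obtain ⟨w, hw⟩ := h3
      have hw1 : w = 1 := by
        have h6 : w < 2 := by
          by_contra h7
          have h8 : P * 2 ≤ P * w := Nat.mul_le_mul_left P (by omega)
          omega
        have h9 : w ≠ 0 := by
          rintro rfl
          omega
        omega
      rw [hw1, mul_one] at hw
      rcases Nat.lt_or_ge h 2 with h10 | h10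
      · have h11 : h = 1 := by omega
        rw [h11, one_mul] at hPm
        exact hne ⟨h11, by omega⟩
      · have h12 : 2 * m ≤ h * m := Nat.mul_le_mul_right m h10
        omega
  by_cases hS1 : h = 1 ∧ km = 2
  · obtain ⟨hh', hkm'⟩ := hS1
    rw [hh', one_mul] at hPm
    rcases Nat.eq_zero_or_pos u with hu0 | hu1
    · have hK' := hK0 hu0
      rw [hkm'] at hK'
      apply key1 (2 * m + 1)
      · change (2 * m + 1) % m = 1 % m
        rw [Nat.mul_add_mod_self_right]
      · intro hPy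
        have h3 : P ∣ 2 * P - (2 * m + 1) := Nat.dvd_sub (Dvd.intro_left 2 rfl) hPy
        have h4 : 2 * P - (2 * m + 1) = 1 := by omega
        rw [h4] at h3
        exact hP.one_lt.ne' (Nat.dvd_one.mp h3)
      · omega
      · omega
    · have hK' := hKbig hu1
      rw [hkm'] at hK' hKmod
      have h3P : 3 * P ≤ P * P := Nat.mul_le_mul_right P hP3
      obtain ⟨y, hy⟩ : ∃ y, y + 2 * P = K + 1 := ⟨K + 1 - 2 * P, by omega⟩
      apply key1 y
      · have h3 : y + 2 * P ≡ 1 + 2 * P [MOD m] := by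
          rw [hy]
          have h4 : K + 1 ≡ 2 + 1 [MOD m] := hKmod.add_right 1
          have h5 : 1 + 2 * P ≡ 1 + 2 * 1 [MOD m] := (hPmod.mul_left 2).add_left 1
          exact h4.trans h5.symm
        exact Nat.ModEq.add_right_cancel' _ h3
      · intro hPy
        have h3 : P ∣ (y + 2 * P) - K :=
          Nat.dvd_sub (Nat.dvd_add hPy (Dvd.intro_left 2 rfl)) hPK
        have h4 : (y + 2 * P) - K = 1 := by omega
        rw [h4] at h3
        exact hP.one_lt.ne' (Nat.dvd_one.mp h3)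
      · omega
      · omega
  · by_cases hbig : 2 * (km + m) ≤ K + 2
    · exact gen hS1 hbig
    · -- now `h = 1`, `km = 1` and `u = 0`
      have hu0 : u = 0 := by
        rcases Nat.eq_zero_or_pos u with h0 | h0
        · exact h0
        · exfalso
          have h3 := hKbig h0
          have h4 : 3 * P ≤ P * P := Nat.mul_le_mul_right P hP3
          have h5 : 3 * P * km ≤ P * P * km := Nat.mul_le_mul_right km h4
          have h6 : P * 1 ≤ P * km := Nat.mul_le_mul_left P hkm1
          have h7 : 3 * km ≤ P * km := Nat.mul_le_mul_right km hP3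
          have h8 : 3 * P * km = 3 * (P * km) := by ring
          omega
      have hK' := hK0 hu0
      have hkm' : km = 1 := by
        by_contra h0
        have h3 : 2 ≤ km := by omega
        obtain ⟨a, rfl⟩ : ∃ a, km = a + 2 := ⟨km - 2, by omega⟩
        obtain ⟨c, hc⟩ : ∃ c, P = c + m + 1 := ⟨P - m - 1, by omega⟩
        apply hbig
        rw [hK', hc]
        nlinarith [Nat.zero_le (a * c), Nat.zero_le (a * m)]
      have hh' : h = 1 := by
        by_contra h0
        have h3 : 2 * m ≤ h * m := Nat.mul_le_mul_right m (by omega)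
        rw [hkm', mul_one] at hK'
        omega
      rw [hkm', one_mul] at hkm
      rw [hh', one_mul] at hPm
      subst hkm
      have hPodd : Odd P := hP.odd_of_ne_two hP2
      obtain ⟨w, hw⟩ : ∃ w, P * P + 1 = 2 * w := by
        obtain ⟨a, ha⟩ := hPodd
        exact ⟨2 * a * a + 2 * a + 1, by rw [ha]; ring⟩
      have hmod : ∀ a, 1 + m' * a ≡ 1 [MOD m'] := by
        intro a
        change (1 + m' * a) % m' = 1 % m'
        rw [Nat.add_mul_mod_self_left]
      rcases hu with ⟨ht, _⟩ | ht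
      · subst ht
        obtain ⟨a, ha⟩ := hPodd
        have hm'a : m' = 2 * a := by omega
        have hwa : w = 1 + m' * (a + 1) := by
          have h3 : 2 * w = 2 * (1 + m' * (a + 1)) := by
            rw [← hw, hPm, hm'a]
            ring
          omega
        have hPw : ¬ P ∣ w := by
          intro h3
          have h4 : P ∣ P * P + 1 := by
            rw [hw]
            exact Dvd.dvd.mul_left h3 2
          have h5 : P ∣ 1 := (Nat.dvd_add_right (Dvd.intro P rfl)).mp h4
          exact hP.one_lt.ne' (Nat.dvd_one.mp h5)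
        apply (key w (hwa ▸ hmod (a + 1)) hPw).1 rfl
        have h3 : 2 * w / (km * P) = m' + 1 := by
          rw [hkm', one_mul, ← hw, Nat.div_eq_iff hP.pos, ← hPm]
          omega
        rw [h3, cop_succ]
        apply Even.add_one
        apply Nat.totient_even
        by_contra h4
        apply hn6
        have h5 : m' = 2 := by omega
        rw [hPn, hPm, h5]
        norm_num
      · have ht1 : t = 1 := by omega
        subst ht1
        have h2y : 2 * (1 + m' * w) = P * (P * m' + 1) + 1 := by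
          calc 2 * (1 + m' * w) = 2 + m' * (2 * w) := by ring
            _ = 2 + m' * (P * P + 1) := by rw [hw]
            _ = P * P * m' + (m' + 1) + 1 := by ring
            _ = P * P * m' + P + 1 := by rw [← hPm]
            _ = _ := by ring
        have hPw : ¬ P ∣ 1 + m' * w := by
          intro h3
          have h4 : P ∣ P * (P * m' + 1) + 1 := by
            rw [← h2y]
            exact Dvd.dvd.mul_left h3 2
          have h5 : P ∣ 1 := (Nat.dvd_add_right (Dvd.intro _ rfl)).mp h4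
          exact hP.one_lt.ne' (Nat.dvd_one.mp h5)
        apply (key (1 + m' * w) (hmod w) hPw).2 le_rfl
        have h3 : 2 * (1 + m' * w) / (P ^ 1 * km) = P * m' + 1 := by
          rw [hkm', mul_one, pow_one, h2y, Nat.mul_add_div hP.pos,
            Nat.div_eq_of_lt hP.one_lt, add_zero]
        rw [h3, cop_succ]
        apply Even.add_one
        apply Nat.totient_even
        have h4 : 3 * 2 ≤ P * m' := Nat.mul_le_mul hP3 hm2
        omega

/-- The main theorem in terms of the order of `2`. -/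
private lemma main {n : ℕ} (hn : 2 ≤ n) (h6 : n ≠ 6) :
    ∃ p : ℕ, p.Prime ∧ orderOf (2 : ZMod p) = n ∧ Odd (padicValNat p (mers n)) := by
  by_contra hcon
  have H : ∀ p : ℕ, p.Prime → orderOf (2 : ZMod p) = n → ¬ Odd (padicValNat p (mers n)) :=
    fun p hp h1 h2 => hcon ⟨p, hp, h1, h2⟩
  obtain ⟨r, k, hkr, hr, hrad⟩ := radex (show n ≠ 0 by omega)
  have hr0 : r ≠ 0 := hr.ne_zero
  have hr1 : r ≠ 1 := by
    intro h1
    obtain ⟨p, hp, hpn⟩ := Nat.exists_prime_and_dvd (show n ≠ 1 by omega)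
    have h2 := hrad p hp hpn
    rw [h1] at h2
    exact hp.one_lt.ne' (Nat.dvd_one.mp h2)
  have hk0 : k ≠ 0 := by
    rintro rfl
    omega
  obtain ⟨b, hb, hM | ⟨P, s, hP, hP2, hs, hPn, hM⟩⟩ := struct (by omega) hkr hr hrad H
  · rcases Nat.lt_or_ge k 3 with hk | hk
    · have hk' : k = 1 ∨ k = 2 := by omega
      rcases hk' with rfl | rfl
      · exact case1 hr (by omega) hM
      · exact case2 hr (by omega) hM
    · exact case3 hk hkr hr hrad hb hM
  · exact pcase hn h6 hkr hr hrad hb hP hP2 hs hPn hM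

end Pool.Agent.Lib.MP_ac1dd9_nt.OddExp

open Pool.Agent.Lib.MP_ac1dd9_nt.OddExp in
/-- For every `n ≥ 2`, `n ≠ 6`, the number `2 ^ n - 1` has a primitive prime divisor `p` whose
exponent in `2 ^ n - 1` is odd; then also the exponent of `p` in `2 ^ (p - 1) - 1` is odd. -/
theorem Pool.Agent.Lib.MP_ac1dd9_nt.OddExp.oddExponent (n : ℕ) (hn : 2 ≤ n) (h6 : n ≠ 6) :
    ∃ p : ℕ, p.Prime ∧ p ∣ 2 ^ n - 1 ∧ (∀ m : ℕ, 1 ≤ m → m < n → ¬ p ∣ 2 ^ m - 1) ∧
      Odd (padicValNat p (2 ^ n - 1)) ∧ Odd (padicValNat p (2 ^ (p - 1) - 1)) := by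
  obtain ⟨p, hp, hord, hodd⟩ := main hn h6
  have := Fact.mk hp
  have hdvd : ∀ e : ℕ, p ∣ 2 ^ e - 1 ↔ n ∣ e := by
    intro e
    have h := dvd_mers (p := p) e
    rw [hord] at h
    exact h
  have hpn : p ∣ 2 ^ n - 1 := (hdvd n).mpr dvd_rfl
  have hp2 : p ≠ 2 := ne_two (e := n) (by omega) hpn
  refine ⟨p, hp, hpn, ?_, hodd, ?_⟩
  · intro m hm hmn h
    have := Nat.le_of_dvd (by omega) ((hdvd m).mp h)
    omega
  · have h20 : (2 : ZMod p) ≠ 0 := by
      intro h4
      have h5 : ((2 : ℕ) : ZMod p) = 0 := by exact_mod_cast h4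
      rw [ZMod.natCast_eq_zero_iff] at h5
      exact hp2 ((Nat.prime_dvd_prime_iff_eq hp Nat.prime_two).mp h5)
    obtain ⟨t, ht⟩ : n ∣ p - 1 := by
      rw [← hord]
      exact ZMod.orderOf_dvd_card_sub_one h20
    have hp1 := hp.two_le
    have ht0 : t ≠ 0 := by
      rintro rfl
      omega
    have htp : ¬ p ∣ t := by
      intro h
      have h1 := Nat.le_of_dvd (Nat.pos_of_ne_zero ht0) h
      have h2 : 1 * t ≤ n * t := Nat.mul_le_mul_right t (by omega)
      omega
    have h3 : ¬ p ∣ 2 ^ n := by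
      intro h4
      exact hp2 ((Nat.prime_dvd_prime_iff_eq hp Nat.prime_two).mp (hp.dvd_of_dvd_pow h4))
    have h4 := padicValNat.pow_sub_pow (hp.odd_of_ne_two hp2) (x := 2 ^ n) (y := 1)
      (Nat.one_lt_two_pow (by omega)) hpn h3 ht0
    rw [one_pow, ← pow_mul, padicValNat.eq_zero_of_not_dvd htp, add_zero] at h4
    rw [ht, h4]
    exact hodd
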